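import Mathlib

set_option autoImplicit false

open MeasureTheory Matrix Set
open scoped ENNReal Real

namespace Pool.Agent.Y291.SpecHad

/-- `e(t) = exp(2πit)` -/
noncomputable def e (t : ℝ) : ℂ := Complex.exp (2 * π * Complex.I * (t : ℂ))

lemma e_add (s t : ℝ) : e (s + t) = e s * e t := by
  unfold e; rw [← Complex.exp_add]; congr 1; push_cast; ring

lemma e_int (n : ℤ) : e n = 1 := by
  unfold e
  rw [Complex.exp_eq_one_iff]
  exact ⟨n, by push_cast; ring⟩

lemma e_zero : e 0 = 1 := by unfold e; simp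

lemma e_half : e (1 / 2) = -1 := by
  unfold e
  rw [show (2 * (π : ℂ) * Complex.I * (((1 / 2 : ℝ)) : ℂ)) = π * Complex.I by push_cast; ring]
  exact Complex.exp_pi_mul_I

lemma e_eq_neg_one {t : ℝ} (h : e t = -1) : ∃ n : ℤ, t = 1 / 2 + n := by
  have h1 : e (t - 1 / 2) = 1 := by
    have : e (t - 1 / 2 + 1 / 2) = e (t - 1 / 2) * e (1 / 2) := e_add _ _
    rw [sub_add_cancel, h, e_half] at this
    linear_combination this
  unfold e at h1
  rw [Complex.exp_eq_one_iff] at h1
  obtain ⟨n, hn⟩ := h1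
  refine ⟨n, ?_⟩
  have h2 : (2 * (π : ℂ) * Complex.I) * (((t - 1 / 2 : ℝ) : ℂ) - n) = 0 := by
    linear_combination hn
  rcases mul_eq_zero.1 h2 with h3 | h3
  · exact absurd h3 Complex.two_pi_I_ne_zero
  · have h4 : ((t - 1 / 2 : ℝ) : ℂ) = ((n : ℝ) : ℂ) := by
      rw [sub_eq_zero] at h3; rw [h3]; push_cast; rfl
    have h5 : t - 1 / 2 = (n : ℝ) := by exact_mod_cast h4
    linarith

/-- the second binary digit function -/
noncomputable def chi (s : ℝ) : ℝ := if Int.fract s < 1 / 2 then 0 else 1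

lemma chi_add_int (s : ℝ) (n : ℤ) : chi (s + n) = chi s := by
  unfold chi; rw [Int.fract_add_intCast]

lemma chi_nonneg (s : ℝ) : 0 ≤ chi s := by unfold chi; split_ifs <;> norm_num
lemma chi_le (s : ℝ) : chi s ≤ 1 := by unfold chi; split_ifs <;> norm_num

lemma measurable_chi : Measurable chi := by
  unfold chi
  exact Measurable.ite (measurableSet_lt measurable_fract measurable_const) measurable_const
    measurable_const

/-- `y(s) = ∑ 3^{-(k+1)} chi(4^k s)` -/
noncomputable def y (s : ℝ) : ℝ := ∑' k : ℕ, (1 / 3 : ℝ) ^ (k + 1) * chi (4 ^ k * s)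

lemma y_summable (s : ℝ) : Summable fun k : ℕ => (1 / 3 : ℝ) ^ (k + 1) * chi (4 ^ k * s) := by
  have h : Summable fun k : ℕ => (1 / 3 : ℝ) ^ (k + 1) :=
    (summable_nat_add_iff 1).2 (summable_geometric_of_lt_one (by norm_num) (by norm_num))
  refine Summable.of_nonneg_of_le (fun k => ?_) (fun k => ?_) h
  · exact mul_nonneg (by positivity) (chi_nonneg _)
  · exact mul_le_of_le_one_right (by positivity) (chi_le _)

lemma y_add_int (s : ℝ) (n : ℤ) : y (s + n) = y s := by
  unfold y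
  congr 1
  funext k
  congr 1
  have : (4 : ℝ) ^ k * (s + n) = 4 ^ k * s + ((4 ^ k * n : ℤ) : ℝ) := by push_cast; ring
  rw [this, chi_add_int]

lemma y_eq (s : ℝ) : y s = (chi s + y (4 * s)) / 3 := by
  have h := (y_summable s).tsum_eq_zero_add
  have h2 : ∑' k : ℕ, (1 / 3 : ℝ) ^ (k + 1 + 1) * chi (4 ^ (k + 1) * s) = (1 / 3) * y (4 * s) := by
    unfold y
    rw [← tsum_mul_left]
    congr 1
    funext k
    have : (4 : ℝ) ^ (k + 1) * s = 4 ^ k * (4 * s) := by ring
    rw [this]; ring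
  have h3 : y s = (1 / 3 : ℝ) ^ (0 + 1) * chi (4 ^ 0 * s) +
      ∑' k : ℕ, (1 / 3 : ℝ) ^ (k + 1 + 1) * chi (4 ^ (k + 1) * s) := h
  rw [h3, h2]
  simp only [pow_zero, one_mul, zero_add, pow_one]
  ring

lemma measurable_y : Measurable y := by
  unfold y
  refine Measurable.tsum (fun k => ?_)
  exact measurable_const.mul (measurable_chi.comp (measurable_const.mul measurable_id))

/-- Lebesgue measure on `[0,1)` -/
noncomputable def I : Measure ℝ := volume.restrict (Ico (0 : ℝ) 1)

instance : IsProbabilityMeasure I := ⟨by unfold I; simp⟩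

/-- the branch maps -/
noncomputable def G (δ : ℝ) (s : ℝ) : Fin 2 → ℝ := ![s + 2 * δ, (δ + y s) / 3]

lemma measurable_G (δ : ℝ) : Measurable (G δ) := by
  unfold G
  refine measurable_pi_lambda _ (fun i => ?_)
  fin_cases i
  · exact measurable_id.add_const _
  · exact (measurable_const.add measurable_y).div_const _

/-- the self-affine measure -/
noncomputable def mu : Measure (Fin 2 → ℝ) := (2 : ℝ≥0∞)⁻¹ • (I.map (G 0) + I.map (G 1))


lemma map_branch (j : ℕ) : I.map (fun s : ℝ => (s + j) / 4) =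
    (4 : ℝ≥0∞) • volume.restrict (Ico ((j : ℝ) / 4) ((j + 1 : ℝ) / 4)) := by
  have hm : Measurable (fun s : ℝ => (s + j) / 4) := by fun_prop
  have h1 : (volume : Measure ℝ).map (fun s : ℝ => (s + j) / 4) = (4 : ℝ≥0∞) • volume := by
    have h2 : (fun s : ℝ => (s + j) / 4) = (fun s : ℝ => s * (1 / 4)) ∘ (fun s : ℝ => s + j) := by
      funext s; simp only [Function.comp]; ring
    rw [h2, ← Measure.map_map (by fun_prop) (by fun_prop), map_add_right_eq_self,
      Real.map_volume_mul_right (by norm_num : (1 / 4 : ℝ) ≠ 0)]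
    congr 1
    norm_num
  have hpre : (fun s : ℝ => (s + j) / 4) ⁻¹' (Ico ((j : ℝ) / 4) ((j + 1 : ℝ) / 4)) = Ico 0 1 := by
    ext s
    simp only [mem_preimage, mem_Ico]
    constructor
    · rintro ⟨h3, h4⟩
      constructor <;> linarith
    · rintro ⟨h3, h4⟩
      constructor <;> linarith
  unfold I
  rw [← hpre, ← Measure.restrict_map hm measurableSet_Ico, h1, Measure.restrict_smul]

lemma split_I : I = (4 : ℝ≥0∞)⁻¹ • (I.map (fun s : ℝ => (s + (0 : ℕ)) / 4) +
    I.map (fun s : ℝ => (s + (1 : ℕ)) / 4) + I.map (fun s : ℝ => (s + (2 : ℕ)) / 4) +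
    I.map (fun s : ℝ => (s + (3 : ℕ)) / 4)) := by
  simp only [map_branch]
  rw [← smul_add, ← smul_add, ← smul_add, smul_smul,
    ENNReal.inv_mul_cancel (by norm_num) (by norm_num), one_smul]
  have key : ∀ a b c : ℝ, a ≤ b → b ≤ c → (volume : Measure ℝ).restrict (Ico a b) +
      volume.restrict (Ico b c) = volume.restrict (Ico a c) := by
    intro a b c hab hbc
    rw [← Measure.restrict_union _ measurableSet_Ico, Ico_union_Ico_eq_Ico hab hbc]
    rw [Set.disjoint_left]
    rintro x ⟨_, h1⟩ ⟨h2, _⟩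
    linarith
  unfold I
  rw [show (((0 : ℕ) : ℝ) + 1) / 4 = ((1 : ℕ) : ℝ) / 4 by norm_num,
    key _ _ _ (by norm_num) (by norm_num),
    show (((1 : ℕ) : ℝ) + 1) / 4 = ((2 : ℕ) : ℝ) / 4 by norm_num] 
  rw [key _ _ _ (by norm_num) (by norm_num),
    show (((2 : ℕ) : ℝ) + 1) / 4 = ((3 : ℕ) : ℝ) / 4 by norm_num,
    key _ _ _ (by norm_num) (by norm_num)]
  norm_num

/-- the maps of the iterated function system -/
noncomputable def phi (a c : ℝ) (x : Fin 2 → ℝ) : Fin 2 → ℝ := ![(x 0 + a) / 4, (x 1 + c) / 3]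

lemma measurable_phi (a c : ℝ) : Measurable (phi a c) := by
  unfold phi
  refine measurable_pi_lambda _ (fun i => ?_)
  fin_cases i
  · exact ((measurable_pi_apply 0).add_const _).div_const _
  · exact ((measurable_pi_apply 1).add_const _).div_const _

lemma chi_quarter (s : ℝ) (hs : s ∈ Ico (0 : ℝ) 1) (j : ℕ) (hj : j < 4) :
    chi ((s + j) / 4) = if j < 2 then 0 else 1 := by
  have hj' : (j : ℝ) + 1 ≤ 4 := by exact_mod_cast hj
  have hj0 : (0 : ℝ) ≤ j := by positivity
  have h1 : Int.fract ((s + j) / 4) = (s + j) / 4 := by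
    rw [Int.fract_eq_self]
    constructor
    · have := hs.1; positivity
    · have := hs.2; linarith
  unfold chi
  rw [h1]
  by_cases h : j < 2
  · have h2 : (j : ℝ) + 1 ≤ 2 := by exact_mod_cast h
    rw [if_pos h, if_pos]
    have := hs.2
    linarith
  · have h2 : (2 : ℝ) ≤ j := by exact_mod_cast (not_lt.1 h)
    rw [if_neg h, if_neg]
    have := hs.1
    linarith

lemma branch (δ δ' ε : ℝ) (j : ℕ) (hj : j < 4) (h : (j : ℝ) = 2 * δ' + ε)
    (hδ : δ' = if j < 2 then 0 else 1) :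
    (I.map (G δ')).map (phi (ε + 8 * δ) δ) = (I.map (fun s : ℝ => (s + j) / 4)).map (G δ) := by
  rw [Measure.map_map (measurable_phi _ _) (measurable_G _),
    Measure.map_map (measurable_G _) (by fun_prop)]
  apply Measure.map_congr
  unfold I
  filter_upwards [ae_restrict_mem measurableSet_Ico] with s hs
  simp only [Function.comp, phi, G]
  have hy : y ((s + j) / 4) = (δ' + y s) / 3 := by
    rw [y_eq, chi_quarter s hs j hj, ← hδ]
    have : 4 * ((s + j) / 4) = s + ((j : ℤ) : ℝ) := by push_cast; ring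
    rw [this, y_add_int]
  rw [hy]
  funext i
  fin_cases i
  · simp [h]; ring
  · simp; ring

lemma mu_self : mu = (4 : ℝ≥0∞)⁻¹ • (mu.map (phi 0 0) + mu.map (phi 1 0) + mu.map (phi 8 1) +
    mu.map (phi 9 1)) := by
  have hmap : ∀ a c : ℝ, mu.map (phi a c) =
      (2 : ℝ≥0∞)⁻¹ • ((I.map (G 0)).map (phi a c) + (I.map (G 1)).map (phi a c)) := by
    intro a c
    unfold mu
    rw [Measure.map_smul, Measure.map_add _ _ (measurable_phi a c)]
  have b00 := branch 0 0 0 0 (by norm_num) (by norm_num) (by norm_num)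
  have b01 := branch 0 0 1 1 (by norm_num) (by norm_num) (by norm_num)
  have b02 := branch 0 1 0 2 (by norm_num) (by norm_num) (by norm_num)
  have b03 := branch 0 1 1 3 (by norm_num) (by norm_num) (by norm_num)
  have b10 := branch 1 0 0 0 (by norm_num) (by norm_num) (by norm_num)
  have b11 := branch 1 0 1 1 (by norm_num) (by norm_num) (by norm_num)
  have b12 := branch 1 1 0 2 (by norm_num) (by norm_num) (by norm_num)
  have b13 := branch 1 1 1 3 (by norm_num) (by norm_num) (by norm_num)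
  rw [show (0 : ℝ) + 8 * 0 = 0 by norm_num] at b00 b02
  rw [show (1 : ℝ) + 8 * 0 = 1 by norm_num] at b01 b03
  rw [show (0 : ℝ) + 8 * 1 = 8 by norm_num] at b10 b12
  rw [show (1 : ℝ) + 8 * 1 = 9 by norm_num] at b11 b13
  rw [hmap, hmap, hmap, hmap]
  have hs : ∀ δ : ℝ, I.map (G δ) = (4 : ℝ≥0∞)⁻¹ • ((I.map (fun s : ℝ => (s + (0 : ℕ)) / 4)).map (G δ) +
    (I.map (fun s : ℝ => (s + (1 : ℕ)) / 4)).map (G δ) +
    (I.map (fun s : ℝ => (s + (2 : ℕ)) / 4)).map (G δ) +
    (I.map (fun s : ℝ => (s + (3 : ℕ)) / 4)).map (G δ)) := by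
    intro δ
    conv_lhs => rw [split_I]
    rw [Measure.map_smul, Measure.map_add _ _ (measurable_G δ), Measure.map_add _ _ (measurable_G δ),
      Measure.map_add _ _ (measurable_G δ)]
  rw [b00, b01, b02, b03, b10, b11, b12, b13]
  conv_lhs => unfold mu
  rw [hs 0, hs 1]
  simp only [smul_add, smul_smul, mul_comm (2 : ℝ≥0∞)⁻¹ (4 : ℝ≥0∞)⁻¹]
  abel

/-! ### the exponentials on `[0,1)` -/

lemma continuous_e : Continuous e := by unfold e; fun_prop

lemma norm_e (t : ℝ) : ‖e t‖ = 1 := by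
  unfold e
  rw [show 2 * (π : ℂ) * Complex.I * (t : ℂ) = ((2 * π * t : ℝ) : ℂ) * Complex.I by
    push_cast; ring]
  exact Complex.norm_exp_ofReal_mul_I _

lemma e_ne_zero (t : ℝ) : e t ≠ 0 := Complex.exp_ne_zero _

lemma integral_I (g : ℝ → ℂ) : ∫ s, g s ∂I = ∫ s in (0 : ℝ)..1, g s := by
  unfold I
  rw [intervalIntegral.integral_of_le zero_le_one]
  exact setIntegral_congr_set Ico_ae_eq_Ioc

lemma integral_e_int (n : ℤ) (hn : n ≠ 0) : ∫ s, e (n * s) ∂I = 0 := by
  rw [integral_I]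
  have hc : (2 * π * Complex.I * (n : ℂ)) ≠ 0 :=
    mul_ne_zero Complex.two_pi_I_ne_zero (by exact_mod_cast hn)
  have h1 : ∀ s : ℝ, e (n * s) = Complex.exp (2 * π * Complex.I * (n : ℂ) * s) := by
    intro s; unfold e; congr 1; push_cast; ring
  simp_rw [h1]
  rw [integral_exp_mul_complex hc]
  have h2 : Complex.exp (2 * π * Complex.I * (n : ℂ) * ((1 : ℝ) : ℂ)) = 1 := by
    have := e_int n
    unfold e at this
    rw [← this]; congr 1; push_cast; ring
  rw [h2]
  simp

lemma complete_I (g : ℝ → ℂ) (hg : MemLp g 2 I) (h : ∀ n : ℤ, ∫ s, g s * e (-(n * s)) ∂I = 0) :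
    g =ᵐ[I] 0 := by
  have hI : I = volume.restrict (Ioc (0 : ℝ) 1) := by
    unfold I; exact Measure.restrict_congr_set Ico_ae_eq_Ioc
  have hg' : MemLp g 2 (volume.restrict (Ioc (0 : ℝ) 1)) := by rw [← hI]; exact hg
  have hs := tsum_sq_fourierCoeffOn (zero_lt_one' ℝ) hg'
  have hz : ∀ n : ℤ, fourierCoeffOn (zero_lt_one' ℝ) g n = 0 := by
    intro n
    rw [fourierCoeffOn_eq_integral]
    have h1 := h n
    rw [integral_I] at h1
    have h2 : ∀ x : ℝ, (fourier (-n) (x : AddCircle ((1 : ℝ) - 0)) : ℂ) • g x = g x * e (-(n * x)) := by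
      intro x
      rw [fourier_coe_apply, smul_eq_mul, mul_comm]
      congr 1
      unfold e
      congr 1
      push_cast
      simp
      ring
    simp_rw [h2, h1, smul_zero]
  simp only [hz, norm_zero] at hs
  rw [show ∑' _ : ℤ, (0 : ℝ) ^ 2 = 0 by simp] at hs
  have h3 : ∫ x in (0 : ℝ)..1, ‖g x‖ ^ 2 = 0 := by
    simpa using hs.symm
  rw [intervalIntegral.integral_of_le zero_le_one, ← hI] at h3
  have hint : Integrable (fun x => ‖g x‖ ^ 2) I := (memLp_two_iff_integrable_sq_norm hg.1).1 hg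
  rw [integral_eq_zero_iff_of_nonneg (fun x => by positivity) hint] at h3
  filter_upwards [h3] with x hx
  simpa using hx

instance : IsProbabilityMeasure mu := by
  unfold mu
  have h0 : IsProbabilityMeasure (I.map (G 0)) :=
    Measure.isProbabilityMeasure_map (measurable_G 0).aemeasurable
  have h1 : IsProbabilityMeasure (I.map (G 1)) :=
    Measure.isProbabilityMeasure_map (measurable_G 1).aemeasurable
  constructor
  simp only [Measure.smul_apply, Measure.add_apply, measure_univ, smul_eq_mul]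
  rw [show (1 : ℝ≥0∞) + 1 = 2 by norm_num]
  exact ENNReal.inv_mul_cancel (by norm_num) (by norm_num)

lemma integral_mu (F : (Fin 2 → ℝ) → ℂ) (hF : Integrable F mu) :
    ∫ x, F x ∂mu = (1 / 2) * (∫ s, F (G 0 s) ∂I + ∫ s, F (G 1 s) ∂I) := by
  have hF2 : Integrable F (I.map (G 0) + I.map (G 1)) := by
    have h := hF.smul_measure (c := 2) (by norm_num)
    unfold mu at h
    rw [smul_smul, ENNReal.mul_inv_cancel (by norm_num) (by norm_num), one_smul] at h
    exact h
  have h0 : Integrable F (I.map (G 0)) := hF2.left_of_add_measure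
  have h1 : Integrable F (I.map (G 1)) := hF2.right_of_add_measure
  unfold mu
  rw [integral_smul_measure, integral_add_measure h0 h1,
    integral_map (measurable_G 0).aemeasurable h0.1, integral_map (measurable_G 1).aemeasurable h1.1]
  simp
  ring

lemma G_zero (δ s : ℝ) : G δ s 0 = s + 2 * δ := by simp [G]
lemma G_one (δ s : ℝ) : G δ s 1 = (δ + y s) / 3 := by simp [G]

lemma integral_mu_e (t : ℝ) : ∫ x, e (t * x 0) ∂mu =
    (1 / 2) * ((1 + e (2 * t)) * ∫ s, e (t * s) ∂I) := by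
  rw [integral_mu]
  · simp only [G_zero]
    have h1 : ∀ s : ℝ, e (t * (s + 2 * 1)) = e (2 * t) * e (t * s) := by
      intro s; rw [← e_add]; congr 1; ring
    have h0 : ∀ s : ℝ, e (t * (s + 2 * 0)) = e (t * s) := by
      intro s; congr 1; ring
    simp_rw [h1, h0]
    rw [integral_const_mul]
    ring
  · refine Integrable.of_bound (C := 1) ?_ (Filter.Eventually.of_forall fun x => ?_)
    · exact (continuous_e.measurable.comp
        (measurable_const.mul (measurable_pi_apply 0))).aestronglyMeasurable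
    · rw [norm_e]

/-- the spectrum -/
def Lam : Set (Fin 2 → ℝ) := {l | l 1 = 0 ∧ ∃ n : ℤ, l 0 = n ∨ l 0 = n + 1 / 4}

lemma e_two_mul_quarter (n : ℤ) : e (2 * (n + 1 / 4)) = -1 := by
  rw [show (2 : ℝ) * (n + 1 / 4) = ((2 * n : ℤ) : ℝ) + 1 / 2 by push_cast; ring, e_add, e_int,
    e_half, one_mul]

lemma e_two_mul_quarter' (n : ℤ) : e (2 * (n - 1 / 4)) = -1 := by
  rw [show (2 : ℝ) * (n - 1 / 4) = ((2 * n - 1 : ℤ) : ℝ) + 1 / 2 by push_cast; ring, e_add, e_int,
    e_half, one_mul]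

lemma integral_zero_of_ne (l l' : Fin 2 → ℝ) (hl : l ∈ Lam) (hl' : l' ∈ Lam) (hne : l ≠ l') :
    ∫ x, e ((l 0 - l' 0) * x 0) ∂mu = 0 := by
  rw [integral_mu_e]
  obtain ⟨h1, n, hn⟩ := hl
  obtain ⟨h1', n', hn'⟩ := hl'
  have hne0 : l 0 ≠ l' 0 := by
    intro h
    apply hne
    funext i
    fin_cases i
    · exact h
    · exact h1.trans h1'.symm
  rcases hn with hn | hn <;> rcases hn' with hn' | hn'
  · have h2 : l 0 - l' 0 = ((n - n' : ℤ) : ℝ) := by rw [hn, hn']; push_cast; ring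
    rw [h2, integral_e_int, mul_zero, mul_zero]
    intro h3
    rw [h3] at h2
    apply hne0
    push_cast at h2
    linarith
  · have h2 : l 0 - l' 0 = ((n - n' : ℤ) : ℝ) - 1 / 4 := by rw [hn, hn']; push_cast; ring
    rw [h2, e_two_mul_quarter']
    ring
  · have h2 : l 0 - l' 0 = ((n - n' : ℤ) : ℝ) + 1 / 4 := by rw [hn, hn']; push_cast; ring
    rw [h2, e_two_mul_quarter]
    ring
  · have h2 : l 0 - l' 0 = ((n - n' : ℤ) : ℝ) := by rw [hn, hn']; push_cast; ring
    rw [h2, integral_e_int, mul_zero, mul_zero]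
    intro h3
    rw [h3] at h2
    apply hne0
    push_cast at h2
    linarith

lemma memLp_branch (f : (Fin 2 → ℝ) → ℂ) (hf : MemLp f 2 mu) :
    MemLp f 2 (I.map (G 0)) ∧ MemLp f 2 (I.map (G 1)) := by
  have h1 : MemLp f 2 ((2 : ℝ≥0∞) • mu) := hf.smul_measure (by norm_num)
  unfold mu at h1
  rw [smul_smul, ENNReal.mul_inv_cancel (by norm_num) (by norm_num), one_smul] at h1
  exact ⟨h1.mono_measure (Measure.le_add_right le_rfl), h1.mono_measure (Measure.le_add_left le_rfl)⟩

lemma complete_mu (f : (Fin 2 → ℝ) → ℂ) (hf : MemLp f 2 mu)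
    (h : ∀ l ∈ Lam, ∫ x, f x * e (-(l 0 * x 0)) ∂mu = 0) : f =ᵐ[mu] 0 := by
  obtain ⟨hf0, hf1⟩ := memLp_branch f hf
  have g0 : MemLp (fun s => f (G 0 s)) 2 I := hf0.comp_of_map (measurable_G 0).aemeasurable
  have g1 : MemLp (fun s => f (G 1 s)) 2 I := hf1.comp_of_map (measurable_G 1).aemeasurable
  have hfint : Integrable f mu := hf.integrable (by norm_num)
  have g0i : Integrable (fun s => f (G 0 s)) I := g0.integrable (by norm_num)
  have g1i : Integrable (fun s => f (G 1 s)) I := g1.integrable (by norm_num)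
  have hmeas : ∀ t : ℝ, AEStronglyMeasurable (fun s : ℝ => e (-(t * s))) I := fun t =>
    (continuous_e.comp (by fun_prop)).aestronglyMeasurable
  have key : ∀ t : ℝ, (![t, 0] : Fin 2 → ℝ) ∈ Lam →
      ∫ s, (f (G 0 s) + e (-(2 * t)) * f (G 1 s)) * e (-(t * s)) ∂I = 0 := by
    intro t ht
    have h1 := h _ ht
    simp only [cons_val_zero] at h1
    rw [integral_mu] at h1
    · simp only [G_zero] at h1
      have h2 : ∀ s : ℝ, e (-(t * (s + 2 * 1))) = e (-(2 * t)) * e (-(t * s)) := by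
        intro s; rw [← e_add]; congr 1; ring
      have h3 : ∀ s : ℝ, e (-(t * (s + 2 * 0))) = e (-(t * s)) := by
        intro s; congr 1; ring
      simp_rw [h2, h3] at h1
      rw [← integral_add] at h1
      · have h4 : ∫ s, (f (G 0 s) + e (-(2 * t)) * f (G 1 s)) * e (-(t * s)) ∂I =
            ∫ s, f (G 0 s) * e (-(t * s)) + f (G 1 s) * (e (-(2 * t)) * e (-(t * s))) ∂I := by
          refine integral_congr_ae (Filter.Eventually.of_forall fun s => ?_)
          simp only
          ring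
        rw [h4]
        simpa using h1
      · exact g0i.mul_bdd (c := 1) (hmeas t) (Filter.Eventually.of_forall fun s => (norm_e _).le)
      · refine g1i.mul_bdd (c := 1) ((hmeas t).const_mul _) (Filter.Eventually.of_forall fun s => ?_)
        rw [norm_mul, norm_e, norm_e, one_mul]
    · refine hfint.mul_bdd (c := 1) ?_ (Filter.Eventually.of_forall fun s => (norm_e _).le)
      exact (continuous_e.comp (by fun_prop)).aestronglyMeasurable
  -- sum
  have hsum : (fun s => f (G 0 s) + f (G 1 s)) =ᵐ[I] 0 := by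
    refine complete_I _ (g0.add g1) (fun n => ?_)
    have := key n ⟨by simp, n, Or.inl (by simp)⟩
    rw [show -(2 * (n : ℝ)) = ((-2 * n : ℤ) : ℝ) by push_cast; ring, e_int] at this
    simpa using this
  have hdiff : (fun s => (f (G 0 s) - f (G 1 s)) * e (-(1 / 4 * s))) =ᵐ[I] 0 := by
    refine complete_I _ ?_ (fun n => ?_)
    · refine MemLp.of_le (g0.sub g1) ((g0.sub g1).1.mul (hmeas _)) (Filter.Eventually.of_forall fun s => ?_)
      rw [norm_mul, norm_e, mul_one]
      rfl
    · have := key (n + 1 / 4) ⟨by simp, n, Or.inr (by simp)⟩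
      rw [show -(2 * ((n : ℝ) + 1 / 4)) = ((-2 * n - 1 : ℤ) : ℝ) + 1 / 2 by push_cast; ring, e_add,
        e_int, e_half] at this
      rw [← this]
      refine integral_congr_ae (Filter.Eventually.of_forall fun s => ?_)
      simp only
      rw [mul_assoc, ← e_add, show -(1 / 4 * s) + -((n : ℝ) * s) = -(((n : ℝ) + 1 / 4) * s) by ring]
      ring
  have hboth : ∀ᵐ s ∂I, f (G 0 s) = 0 ∧ f (G 1 s) = 0 := by
    filter_upwards [hsum, hdiff] with s h1 h2
    simp only [Pi.zero_apply] at h1 h2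
    have h3 : f (G 0 s) - f (G 1 s) = 0 := by
      rcases mul_eq_zero.1 h2 with h4 | h4
      · exact h4
      · exact absurd h4 (e_ne_zero _)
    constructor
    · linear_combination (h1 + h3) / 2
    · linear_combination (h1 - h3) / 2
  have h0 : f =ᵐ[I.map (G 0)] 0 := by
    rw [← eLpNorm_eq_zero_iff hf0.1 (p := 2) (by norm_num),
      eLpNorm_map_measure hf0.1 (measurable_G 0).aemeasurable]
    refine (eLpNorm_eq_zero_iff (f := f ∘ G 0) g0.1 (p := 2) (by norm_num)).2 ?_
    filter_upwards [hboth] with s hs using hs.1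
  have h1 : f =ᵐ[I.map (G 1)] 0 := by
    rw [← eLpNorm_eq_zero_iff hf1.1 (p := 2) (by norm_num),
      eLpNorm_map_measure hf1.1 (measurable_G 1).aemeasurable]
    refine (eLpNorm_eq_zero_iff (f := f ∘ G 1) g1.1 (p := 2) (by norm_num)).2 ?_
    filter_upwards [hboth] with s hs using hs.2
  unfold mu
  exact Measure.ae_smul_measure (ae_add_measure_iff.2 ⟨h0, h1⟩) _

/-! ### arithmetic -/

lemma no_three (k k' k'' : ℤ × ℤ) (h : ∀ p ∈ [(k, k'), (k, k''), (k', k'')],
    (1 + e (((p.1.1 - p.2.1 : ℤ) : ℝ) / 4)) * (1 + e (((p.1.2 - p.2.2 : ℤ) : ℝ) / 3)) = 0) :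
    False := by
  have key : ∀ a b : ℤ, (1 + e ((a : ℝ) / 4)) * (1 + e ((b : ℝ) / 3)) = 0 → ∃ n : ℤ, a = 2 + 4 * n := by
    intro a b hab
    rcases mul_eq_zero.1 hab with h1 | h1
    · obtain ⟨n, hn⟩ := e_eq_neg_one (t := (a : ℝ) / 4) (by linear_combination h1)
      refine ⟨n, ?_⟩
      have : (a : ℝ) = ((2 + 4 * n : ℤ) : ℝ) := by push_cast; linarith
      exact_mod_cast this
    · exfalso
      obtain ⟨n, hn⟩ := e_eq_neg_one (t := (b : ℝ) / 3) (by linear_combination h1)
      have : ((2 * b : ℤ) : ℝ) = ((3 + 6 * n : ℤ) : ℝ) := by push_cast; linarith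
      have h2 : 2 * b = 3 + 6 * n := by exact_mod_cast this
      omega
  obtain ⟨n1, h1⟩ := key _ _ (h (k, k') (by simp))
  obtain ⟨n2, h2⟩ := key _ _ (h (k, k'') (by simp))
  obtain ⟨n3, h3⟩ := key _ _ (h (k', k'') (by simp))
  simp only at h1 h2 h3
  omega

end Pool.Agent.Y291.SpecHad
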